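import Pool.Agent.Lib_helper99.FGA.Wanted

/-!
# FGA, block A03: sampling at all moduli
-/

set_option autoImplicit false

namespace Pool.Agent.FGA

open Finset Pool.Agent.Var35 Pool.Agent.Var73 Pool.Agent.PV Pool.Agent.FGP
open scoped ArithmeticFunction ArithmeticFunction.Moebius

theorem A03_avg {N' : ℕ} {c : ℤ → ℂ} (Q : ℕ) (hQ : 0 < Q) :
    (1 / (Q : ℂ)) * ∑ b ∈ range Q, ∑ h ∈ Icc (-(N' : ℤ)) N', c h * e (h * ((b : ℝ) / Q)) =
      ∑ h ∈ (Icc (-(N' : ℤ)) N').filter (fun h : ℤ => (Q : ℤ) ∣ h), c h := by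
  have hQc : (Q : ℂ) ≠ 0 := by exact_mod_cast hQ.ne'
  rw [sum_comm, mul_sum, sum_filter]
  refine sum_congr rfl fun h _ => ?_
  have h1 : ∀ b ∈ range Q, c h * e (h * ((b : ℝ) / Q)) = c h * e ((b : ℝ) * ((h : ℝ) / Q)) := by
    intro b _
    congr 2
    ring
  rw [sum_congr rfl h1, ← mul_sum, sum_roots Q hQ]
  by_cases hd : (Q : ℤ) ∣ h
  · rw [if_pos hd, if_pos hd]
    field_simp
  · rw [if_neg hd, if_neg hd, mul_zero, mul_zero]

theorem A03_pars {N' M : ℕ} (hM : 4 * N' < M) {c : ℤ → ℂ} {Φ : ℝ → ℝ}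
    (hc : ∀ t : ℝ, (Φ t : ℂ) = ∑ n ∈ Icc (-(N' : ℤ)) N', c n * e (n * t)) :
    mean M (range M) (fun t => Φ t ^ 2) = ∑ h ∈ Icc (-(N' : ℤ)) N', ‖c h‖ ^ 2 := by
  have hM0 : 0 < M := by omega
  have hMc : (M : ℂ) ≠ 0 := by exact_mod_cast hM0.ne'
  have h1 : ∀ t : ℝ, ((Φ t ^ 2 : ℝ) : ℂ) = ∑ h ∈ Icc (-(N' : ℤ)) N', ∑ h' ∈ Icc (-(N' : ℤ)) N',
      c h * (starRingEnd ℂ) (c h') * e (((h - h' : ℤ) : ℝ) * t) := by
    intro t
    have h2 : ((Φ t ^ 2 : ℝ) : ℂ) = (Φ t : ℂ) * (starRingEnd ℂ) (Φ t : ℂ) := by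
      rw [Complex.conj_ofReal]
      push_cast
      ring
    rw [h2, hc t, map_sum, sum_mul_sum]
    refine sum_congr rfl fun h _ => sum_congr rfl fun h' _ => ?_
    have h3 : ((h - h' : ℤ) : ℝ) * t = h * t - h' * t := by
      push_cast
      ring
    rw [h3, e_sub, map_mul]
    ring
  have h4 : ((mean M (range M) (fun t => Φ t ^ 2) : ℝ) : ℂ) =
      ((∑ h ∈ Icc (-(N' : ℤ)) N', ‖c h‖ ^ 2 : ℝ) : ℂ) := by
    unfold mean
    rw [Complex.ofReal_mul, Complex.ofReal_sum]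
    have h5 : ∀ j ∈ range M, ((Φ ((j : ℝ) / M) ^ 2 : ℝ) : ℂ) =
        ∑ h ∈ Icc (-(N' : ℤ)) N', ∑ h' ∈ Icc (-(N' : ℤ)) N',
        c h * (starRingEnd ℂ) (c h') * e ((j : ℝ) * (((h - h' : ℤ) : ℝ) / M)) := by
      intro j _
      rw [h1]
      refine sum_congr rfl fun h _ => sum_congr rfl fun h' _ => ?_
      congr 2
      ring
    rw [sum_congr rfl h5, sum_comm, mul_sum, Complex.ofReal_sum]
    refine sum_congr rfl fun h hh => ?_
    rw [sum_comm, mul_sum, sum_eq_single h]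
    · rw [← mul_sum, sum_roots M hM0, if_pos (by simp)]
      rw [Complex.mul_conj']
      push_cast
      field_simp
    · intro h' hh' hne
      rw [← mul_sum, sum_roots M hM0, if_neg, mul_zero, mul_zero]
      intro hd
      rw [mem_Icc] at hh hh'
      have h6 := Int.eq_zero_of_abs_lt_dvd hd (by rw [abs_lt]; omega)
      exact hne (by omega)
    · intro h6
      exact absurd hh h6
  exact_mod_cast h4

/-- few multiples: the number of `Q ∈ (Y, 4Y]` dividing `h` is at most `N' / Y` -/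
theorem A03_d (N' Y : ℕ) (hY : 1 ≤ Y) (h : ℤ) (h0 : h ≠ 0) (hN : h.natAbs ≤ N') :
    ((MQ Y).filter (fun Q : ℕ => (Q : ℤ) ∣ h)).card ≤ N' / Y := by
  classical
  have h1 : ((MQ Y).filter (fun Q : ℕ => (Q : ℤ) ∣ h)).card ≤ (Icc 1 (N' / Y)).card := by
    refine card_le_card_of_injOn (fun Q => h.natAbs / Q) ?_ ?_
    · intro Q hQ
      rw [mem_coe, mem_filter, MQ, mem_Ioc] at hQ
      obtain ⟨⟨h2, h3⟩, h4⟩ := hQ
      have h5 : Q ∣ h.natAbs := Int.natCast_dvd.mp h4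
      rw [mem_coe, mem_Icc]
      have h6 : 0 < h.natAbs := Int.natAbs_pos.mpr h0
      refine ⟨Nat.div_pos (Nat.le_of_dvd h6 h5) (by omega), ?_⟩
      calc h.natAbs / Q ≤ N' / Q := Nat.div_le_div_right hN
        _ ≤ N' / Y := Nat.div_le_div_left h2.le hY
    · intro Q hQ Q' hQ' he
      rw [mem_coe, mem_filter, MQ, mem_Ioc] at hQ hQ'
      have h5 : Q ∣ h.natAbs := Int.natCast_dvd.mp hQ.2
      have h5' : Q' ∣ h.natAbs := Int.natCast_dvd.mp hQ'.2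
      have h6 : 0 < h.natAbs := Int.natAbs_pos.mpr h0
      have he' : h.natAbs / Q = h.natAbs / Q' := he
      have h7 : h.natAbs / Q * Q = h.natAbs := Nat.div_mul_cancel h5
      have h8 : h.natAbs / Q' * Q' = h.natAbs := Nat.div_mul_cancel h5'
      rw [← he'] at h8
      have h9 : 0 < h.natAbs / Q := Nat.div_pos (Nat.le_of_dvd h6 h5) (by omega)
      exact Nat.eq_of_mul_eq_mul_left h9 (h7.trans h8.symm)
  rwa [Nat.card_Icc, Nat.add_sub_cancel] at h1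

/-- the multiples of `Q` in `[-N', N']`, without `0` -/
theorem A03_m (N' Q : ℕ) (hQ : 0 < Q) :
    (((Icc (-(N' : ℤ)) N').erase 0).filter (fun h : ℤ => (Q : ℤ) ∣ h)).card ≤ 2 * (N' / Q) := by
  classical
  set K := N' / Q with hK
  have h1 : (((Icc (-(N' : ℤ)) N').erase 0).filter (fun h : ℤ => (Q : ℤ) ∣ h)) ⊆
      ((Icc (-(K : ℤ)) K).erase 0).image (fun k : ℤ => k * Q) := by
    intro h hh
    rw [mem_filter, mem_erase, mem_Icc] at hh
    obtain ⟨⟨h2, h3, h4⟩, k, hk⟩ := hh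
    rw [mem_image]
    have hQz : (0 : ℤ) < Q := by exact_mod_cast hQ
    refine ⟨k, ?_, by rw [hk, mul_comm]⟩
    rw [mem_erase, mem_Icc]
    have hKz : (K : ℤ) = (N' : ℤ) / Q := by rw [hK]; push_cast; rfl
    refine ⟨?_, ?_, ?_⟩
    · rintro rfl
      exact h2 (by rw [hk, mul_zero])
    · have h5 : -k ≤ (K : ℤ) := by
        rw [hKz, Int.le_ediv_iff_mul_le hQz]
        nlinarith
      omega
    · rw [hKz, Int.le_ediv_iff_mul_le hQz]
      nlinarith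
  refine (card_le_card h1).trans (card_image_le.trans ?_)
  have hm : (0 : ℤ) ∈ Icc (-(K : ℤ)) K := by
    rw [mem_Icc]
    have := Int.natCast_nonneg K
    omega
  rw [card_erase_of_mem hm, Int.card_Icc]
  clear_value K
  omega

/-- A03 -/
theorem A03_pr : A03 := by
  classical
  intro N' Y M Φ hN hY hM hTP
  obtain ⟨c, hc⟩ := hTP
  have hM0 : 0 < M := by omega
  set S : Finset ℤ := Icc (-(N' : ℤ)) N' with hS
  set H : Finset ℤ := S.erase 0 with hH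
  have h0S : (0 : ℤ) ∈ S := by
    rw [hS, mem_Icc]
    omega
  have hmean : ((mean M (range M) Φ : ℝ) : ℂ) = c 0 := by
    have h1 := A03_avg (N' := N') (c := c) M hM0
    unfold mean
    rw [Complex.ofReal_mul, Complex.ofReal_sum]
    have h2 : ∀ j ∈ range M, ((Φ ((j : ℝ) / M) : ℝ) : ℂ) = ∑ h ∈ S, c h * e (h * ((j : ℝ) / M)) :=
      fun j _ => hc _
    rw [sum_congr rfl h2]
    have h3 : (((1 / (M : ℝ) : ℝ)) : ℂ) = 1 / (M : ℂ) := by push_cast; rfl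
    rw [h3, h1]
    have h4 : S.filter (fun h : ℤ => (M : ℤ) ∣ h) = {0} := by
      ext h
      rw [mem_filter, mem_singleton, hS, mem_Icc]
      constructor
      · rintro ⟨h5, h6⟩
        exact Int.eq_zero_of_abs_lt_dvd h6 (by rw [abs_lt]; omega)
      · rintro rfl
        exact ⟨by omega, dvd_zero _⟩
    rw [h4, sum_singleton]
  have hQ : ∀ Q ∈ MQ Y, |(1 / (Q : ℝ)) * ∑ b ∈ range Q, Φ (b / Q) - mean M (range M) Φ| ≤
      ∑ h ∈ H.filter (fun h : ℤ => (Q : ℤ) ∣ h), ‖c h‖ := by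
    intro Q hQ
    have hQ0 : 0 < Q := by
      rw [MQ, mem_Ioc] at hQ
      omega
    have h1 := A03_avg (N' := N') (c := c) Q hQ0
    have h2 : (((1 / (Q : ℝ)) * ∑ b ∈ range Q, Φ (b / Q) - mean M (range M) Φ : ℝ) : ℂ) =
        ∑ h ∈ H.filter (fun h : ℤ => (Q : ℤ) ∣ h), c h := by
      rw [Complex.ofReal_sub, Complex.ofReal_mul, Complex.ofReal_sum, hmean]
      have h3 : ∀ b ∈ range Q, ((Φ ((b : ℝ) / Q) : ℝ) : ℂ) =
          ∑ h ∈ S, c h * e (h * ((b : ℝ) / Q)) := fun b _ => hc _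
      have h4 : (((1 / (Q : ℝ) : ℝ)) : ℂ) = 1 / (Q : ℂ) := by push_cast; rfl
      rw [sum_congr rfl h3, h4, h1, hH, filter_erase]
      rw [← add_sum_erase _ _ (mem_filter.2 ⟨h0S, dvd_zero _⟩)]
      ring
    rw [← Real.norm_eq_abs, ← Complex.norm_real, h2]
    exact norm_sum_le _ _
  set d : ℤ → ℝ := fun h => (((MQ Y).filter (fun Q : ℕ => (Q : ℤ) ∣ h)).card : ℝ) with hd
  have hYr : (0 : ℝ) < Y := by exact_mod_cast hY
  have h1 : ∑ Q ∈ MQ Y, ∑ h ∈ H.filter (fun h : ℤ => (Q : ℤ) ∣ h), ‖c h‖ =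
      ∑ h ∈ H, d h * ‖c h‖ := by
    simp only [sum_filter]
    rw [sum_comm]
    refine sum_congr rfl fun h _ => ?_
    rw [← sum_filter, sum_const, nsmul_eq_mul]
  have hdle : ∀ h ∈ H, d h ≤ N' / Y := by
    intro h hh
    rw [hH, mem_erase, hS, mem_Icc] at hh
    have h2 := A03_d N' Y hY h hh.1 (by omega)
    calc d h ≤ ((N' / Y : ℕ) : ℝ) := by
          rw [hd]
          exact Nat.cast_le.mpr h2
      _ ≤ N' / Y := Nat.cast_div_le
  have hd0 : ∀ h, 0 ≤ d h := fun h => Nat.cast_nonneg _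
  have hsd : ∑ h ∈ H, d h ≤ 6 * N' := by
    have h2 : ∑ h ∈ H, d h =
        ∑ Q ∈ MQ Y, ((H.filter (fun h : ℤ => (Q : ℤ) ∣ h)).card : ℝ) := by
      rw [hd]
      simp only [card_filter, Nat.cast_sum]
      rw [sum_comm]
    rw [h2]
    have h3 : ∀ Q ∈ MQ Y, ((H.filter (fun h : ℤ => (Q : ℤ) ∣ h)).card : ℝ) ≤ 2 * (N' / Y) := by
      intro Q hQ
      rw [MQ, mem_Ioc] at hQ
      have h4 := A03_m N' Q (by omega)
      calc ((H.filter (fun h : ℤ => (Q : ℤ) ∣ h)).card : ℝ) ≤ ((2 * (N' / Q) : ℕ) : ℝ) := by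
            exact_mod_cast h4
        _ ≤ ((2 * (N' / Y) : ℕ) : ℝ) := by
            exact_mod_cast Nat.mul_le_mul_left 2 (Nat.div_le_div_left hQ.1.le hY)
        _ = 2 * ((N' / Y : ℕ) : ℝ) := by push_cast; ring
        _ ≤ 2 * (N' / Y) := by
            have := @Nat.cast_div_le ℝ _ _ _ N' Y
            linarith
    refine (sum_le_sum h3).trans ?_
    rw [sum_const, nsmul_eq_mul, MQ, Nat.card_Ioc]
    have h5 : ((4 * Y - Y : ℕ) : ℝ) = 3 * Y := by
      rw [show 4 * Y - Y = 3 * Y by omega]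
      push_cast
      ring
    rw [h5]
    apply le_of_eq
    field_simp
    ring
  have hsd2 : ∑ h ∈ H, d h ^ 2 ≤ 12 * (N' : ℝ) ^ 2 / Y := by
    calc ∑ h ∈ H, d h ^ 2 ≤ ∑ h ∈ H, (N' / Y) * d h := by
          refine sum_le_sum fun h hh => ?_
          rw [sq]
          exact mul_le_mul_of_nonneg_right (hdle h hh) (hd0 h)
      _ = (N' / Y) * ∑ h ∈ H, d h := by rw [mul_sum]
      _ ≤ (N' / Y) * (6 * N') := mul_le_mul_of_nonneg_left hsd (by positivity)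
      _ = 6 * (N' : ℝ) ^ 2 / Y := by ring
      _ ≤ 12 * (N' : ℝ) ^ 2 / Y := by
          apply div_le_div_of_nonneg_right _ hYr.le
          have := sq_nonneg (N' : ℝ)
          linarith
  have h3 : (∑ h ∈ H, d h * ‖c h‖) ^ 2 ≤ (∑ h ∈ H, d h ^ 2) * ∑ h ∈ H, ‖c h‖ ^ 2 :=
    sum_mul_sq_le_sq_mul_sq H d (fun h => ‖c h‖)
  have h5 : ∑ h ∈ H, ‖c h‖ ^ 2 ≤ mean M (range M) (fun t => Φ t ^ 2) := by
    rw [A03_pars hM hc]
    exact sum_le_sum_of_subset_of_nonneg (erase_subset _ _) fun _ _ _ => by positivity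
  have h6 : ∑ h ∈ H, d h * ‖c h‖ ≤ Real.sqrt (12 * (N' : ℝ) ^ 2 / Y) *
      Real.sqrt (mean M (range M) (fun t => Φ t ^ 2)) := by
    rw [← Real.sqrt_mul (by positivity)]
    refine Real.le_sqrt_of_sq_le ?_
    exact h3.trans (mul_le_mul hsd2 h5 (sum_nonneg fun _ _ => by positivity) (by positivity))
  exact (sum_le_sum hQ).trans (h1.le.trans h6)

end Pool.Agent.FGA
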